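import Mathlib

set_option autoImplicit false

namespace Pool.Agent.Results.MP_f03b0a_co.Three

open Finset SimpleGraph MvPolynomial

variable {n m : ℕ}

/-- The spanning subgraph `(V, A)` of a multigraph given by the ends of its edges. -/
def sub (G : Fin m → Fin n × Fin n) (A : Finset (Fin m)) : SimpleGraph (Fin n) :=
  .fromRel fun u v => ∃ e ∈ A, G e = (u, v)

/-- The rank `|V| - k(V, A)`. -/
noncomputable def rk (G : Fin m → Fin n × Fin n) (A : Finset (Fin m)) : ℕ :=
  n - Nat.card (sub G A).ConnectedComponent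

/-- The Tutte polynomial. -/
noncomputable def tutte (G : Fin m → Fin n × Fin n) : MvPolynomial (Fin 2) ℤ :=
  ∑ A : Finset (Fin m), (X 0 - 1) ^ (rk G univ - rk G A) * (X 1 - 1) ^ (#A - rk G A)

/-- At least four vertices, and connected after deleting at most two vertices. -/
def ThreeConn (G : Fin m → Fin n × Fin n) : Prop :=
  4 ≤ n ∧ ∀ S : Finset (Fin n), #S ≤ 2 → ((sub G univ).induce {v | v ∉ S}).Connected

instance (G : Fin m → Fin n × Fin n) (A : Finset (Fin m)) : DecidableRel (sub G A).Adj :=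
  fun _ _ => by unfold sub; infer_instance

noncomputable def cmp (G : Fin m → Fin n × Fin n) (A : Finset (Fin m)) : ℕ :=
  Nat.card (sub G A).ConnectedComponent

def tot (G : Fin m → Fin n × Fin n) : List (Fin m) → List.Vector (Fin n) n → ℕ → ℕ
  | [], r, k => 9000 ^ (r.1.dedup.length + 7 * k)
  | e :: l, r, k => tot G l r k +
    tot G l (r.map fun c => if c = r.get (G e).2 then r.get (G e).1 else c) (k + 1)

lemma cmp_eq (G : Fin m → Fin n × Fin n) (A : Finset (Fin m)) (f : Fin n → Fin n)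
    (h : ∀ x y, f x = f y ↔ (sub G A).Reachable x y) : cmp G A = #(univ.image f) := by
  let g : (sub G A).ConnectedComponent → Fin n := Quot.lift f fun x y => (h x y).2
  have i : g.Injective := by
    rintro ⟨x⟩ ⟨y⟩ k
    exact Quot.sound ((h x y).1 k)
  rw [cmp, ← Nat.card_range_of_injective i,
    show Set.range g = Set.range f from Set.range_quot_lift _,
    Nat.card_coe_set_eq, ← Set.ncard_coe_finset, coe_image, coe_univ, Set.image_univ]

lemma tot_eq (G : Fin m → Fin n × Fin n) (l : List (Fin m)) (hl : l.Nodup) :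
    ∀ (r : List.Vector (Fin n) n) (A : Finset (Fin m)), (∀ e ∈ l, e ∉ A) →
    (∀ x y, r.get x = r.get y ↔ (sub G A).Reachable x y) →
    tot G l r #A = ∑ B ∈ l.toFinset.powerset, 9000 ^ (cmp G (A ∪ B) + 7 * #(A ∪ B)) := by
  induction l with
  | nil =>
    intro r A _ h
    simp only [tot, List.toFinset_nil, powerset_empty, sum_singleton, union_empty, cmp_eq G A _ h]
    rw [← List.card_toFinset]
    congr 3
    ext
    simp [← List.Vector.mem_iff_get]
    rfl
  | cons e l ih =>
    intro r A d h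
    obtain ⟨p, q⟩ := List.nodup_cons.1 hl
    obtain ⟨d, d'⟩ := List.forall_mem_cons.1 d
    rw [List.toFinset_cons, sum_powerset_insert (by simpa), tot, ih q r A d' h,
      ← card_insert_of_notMem d, ih q _ (insert e A) (fun f a b => (mem_insert.1 b).elim
        (fun c => p (c ▸ a)) (d' f a))]
    · simp
    have a : ∀ x y, r.get x = r.get y → (sub G (insert e A)).Reachable x y := fun x y k =>
      ((h x y).1 k).mono (by
        rintro u v ⟨t, ⟨f, a, b⟩ | ⟨f, a, b⟩⟩
        exacts [⟨t, .inl ⟨f, by simp [a], b⟩⟩, ⟨t, .inr ⟨f, by simp [a], b⟩⟩])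
    have t : ∀ A f, f ∈ A → (sub G A).Reachable (G f).1 (G f).2 := fun A f hf => by
      by_cases k : (G f).1 = (G f).2
      · rw [k]
      · exact Adj.reachable ⟨k, .inl ⟨f, hf, rfl⟩⟩
    have t' := t _ e (mem_insert_self e A)
    simp only [List.Vector.get_map]
    refine fun x y => ⟨fun k => ?_, fun ⟨w⟩ => ?_⟩
    · split_ifs at k with p q q
      exacts [a _ _ (p.trans q.symm), (a _ _ p).trans (t'.symm.trans (a _ _ k)),
        (a _ _ k).trans (t'.trans (a _ _ q.symm)), a _ _ k]
    · induction w with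
      | nil => rfl
      | cons k w ih =>
        refine .trans ?_ (ih ⟨w⟩)
        rcases k.2 with ⟨f, p, q⟩ | ⟨f, p, q⟩ <;> obtain ⟨rfl, rfl⟩ := Prod.ext_iff.1 q <;>
          rcases mem_insert.1 p with rfl | p
        exacts [by simp, by rw [(h _ _).2 (t _ _ p)], by simp, by rw [(h _ _).2 (t _ _ p)]]

lemma tot_all (G : Fin m → Fin n × Fin n) :
    ∑ B, 9000 ^ (cmp G B + 7 * #B) = tot G (List.finRange m) (.ofFn id) 0 := by
  have : sub G ∅ = ⊥ := by ext; simp [sub]
  simpa using (tot_eq G _ (List.nodup_finRange m) (.ofFn id) ∅ (by simp)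
    (by simp [this, reachable_bot])).symm

lemma cmp_le (G : Fin m → Fin n × Fin n) (A : Finset (Fin m)) : cmp G A ≤ n := by
  exact (Nat.card_le_card_of_surjective _
    (Quot.mk_surjective (r := (sub G A).Reachable))).trans (by simp)

lemma dig {α M : Type} [Fintype α] [AddCommMonoid M] (N B : ℕ) (f g : α → ℕ) (hf : ∀ a, f a < N)
    (hg : ∀ a, g a < N) (hB : Fintype.card α < B) (h : ∑ a, B ^ f a = ∑ a, B ^ g a) (F : ℕ → M) :
    ∑ a, F (f a) = ∑ a, F (g a) := by
  have k : ∀ {M : Type} [AddCommMonoid M] (f : α → ℕ) (hf : ∀ a, f a < N) (F : ℕ → M),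
      ∑ a, F (f a) = ∑ i : Fin N, #{a | f a = i} • F i := fun f hf F => by
    rw [← sum_fiberwise univ fun a => (⟨f a, hf a⟩ : Fin N)]
    refine sum_congr rfl fun i _ => ?_
    simp only [Fin.ext_iff]
    exact sum_eq_card_nsmul fun a ha => by rw [(mem_filter.1 ha).2]
  rw [k f hf (B ^ ·), k g hg (B ^ ·)] at h
  have := finFunctionFinEquiv.injective (a₁ := fun i : Fin N =>
    (⟨#{a | f a = i}, (card_le_univ _).trans_lt hB⟩ : Fin B))
    (a₂ := fun i => ⟨#{a | g a = i}, (card_le_univ _).trans_lt hB⟩) (Fin.ext h)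
  rw [k f hf, k g hg]
  exact sum_congr rfl fun i _ => congrArg (fun t : Fin B => t.1 • F i) (congrFun this i)

noncomputable def F (t : ℕ) : MvPolynomial (Fin 2) ℤ :=
  (X 0 - 1) ^ (5 - (6 - t % 7)) * (X 1 - 1) ^ (t / 7 - (6 - t % 7))

lemma e (G : Fin m → Fin 6 × Fin 6) (h : (sub G univ).Connected) :
    tutte G = ∑ A, F (cmp G A + 7 * #A) := by
  refine sum_congr rfl fun A _ => ?_
  have := cmp_le G A
  have := h.preconnected.subsingleton_connectedComponent
  have h : cmp G univ = 1 := Nat.card_eq_one_iff_unique.2 ⟨this, ⟨connectedComponentMk _ 0⟩⟩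
  rw [rk, rk, ← cmp, ← cmp, h, F, show (cmp G A + 7 * #A) % 7 = cmp G A by omega,
    show (cmp G A + 7 * #A) / 7 = #A by omega]

def G : Fin 13 → Fin 6 × Fin 6 := ![(0, 2), (0, 3), (1, 3), (1, 4), (1, 4), (2, 4), (2, 4), (0, 5), (1, 5), (2, 5), (2, 5), (3, 5), (4, 5)]

def H : Fin 13 → Fin 6 × Fin 6 := ![(0, 2), (0, 2), (0, 3), (0, 3), (1, 3), (0, 4), (1, 4), (2, 4), (2, 4), (0, 5), (1, 5), (2, 5), (4, 5)]

/-- Connected Tutte-equivalent multigraphs, one 3-connected and one not. -/
theorem result : ∃ (n m n' m' : ℕ) (G : Fin m → Fin n × Fin n) (H : Fin m' → Fin n' × Fin n'),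
    (sub G univ).Connected ∧ (sub H univ).Connected ∧ tutte G = tutte H ∧
      ThreeConn G ∧ ¬ThreeConn H := by
  have g : (sub G univ).Connected := by decide +kernel
  have h : (sub H univ).Connected := by decide +kernel
  refine ⟨6, 13, 6, 13, G, H, g, h, ?_,
    ⟨by decide, by decide +kernel⟩, fun h => absurd (h.2 {0, 1} (by decide)) (by decide +kernel)⟩
  have b : ∀ (G : Fin 13 → Fin 6 × Fin 6) A, cmp G A + 7 * #A < 98 := fun G A => by
    have := card_le_univ A
    have := cmp_le G A
    simp only [Fintype.card_fin] at *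
    omega
  rw [e G g, e H h]
  exact dig 98 9000 _ _ (b G) (b H) (by simp) (by rw [tot_all, tot_all]; decide +kernel) F

end Pool.Agent.Results.MP_f03b0a_co.Three
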